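import Mathlib

/-!
# Products of discrete spaces which are `e`-separable and not `E`-separable
-/

namespace Pool.Agent.Results.MP_a67be6_gt.DiscretePowers

open Set Filter Topology Cardinal

universe u v

/-- `A` is a closed discrete subset of `X`. -/
def ClosedDiscrete {X : Type u} [TopologicalSpace X] (A : Set X) : Prop :=
  IsClosed A ∧ DiscreteTopology A

/-- `X` is `e`-separable: it has a dense subset which is a countable union of closed discrete
sets. -/
def SmallESeparable (X : Type u) [TopologicalSpace X] : Prop :=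
  ∃ E : ℕ → Set X, (∀ n, ClosedDiscrete (E n)) ∧ Dense (⋃ n, E n)

/-- `X` is `E`-separable: for all dense sets `D n` there are closed discrete sets `E n ⊆ D n`
whose union is dense. -/
def BigESeparable (X : Type u) [TopologicalSpace X] : Prop :=
  ∀ D : ℕ → Set X, (∀ n, Dense (D n)) →
    ∃ E : ℕ → Set X, (∀ n, E n ⊆ D n ∧ ClosedDiscrete (E n)) ∧ Dense (⋃ n, E n)

/-- A product of more than `κ` discrete spaces, each with at least two and at most `κ` points, is
not `E`-separable. -/
theorem not_bigESeparable {I : Type u} (K : I → Type u) [∀ i, TopologicalSpace (K i)]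
    [∀ i, DiscreteTopology (K i)] [∀ i, Nontrivial (K i)] (κ : Cardinal.{u}) (hκ : ℵ₀ ≤ κ)
    (hK : ∀ i, #(K i) ≤ κ) (hI : κ < #I) : ¬ BigESeparable (∀ i, K i) := by
  classical
  intro h
  have o : ∀ i, K i := fun i => Classical.arbitrary (K i)
  -- injections
  have hj : ∀ i, ∃ j : K i → κ.out, Function.Injective j := by
    intro i
    have h1 : #(K i) ≤ #κ.out := by
      rw [mk_out]
      exact hK i
    obtain ⟨e⟩ := h1
    exact ⟨e, e.injective⟩
  choose j hj using hj
  let D : Set (∀ i, K i) := {x | {i | x i ≠ o i}.Finite}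
  have hD : Dense D := by
    intro y
    rw [mem_closure_iff_nhds]
    intro U hU
    rw [nhds_pi, Filter.mem_pi'] at hU
    obtain ⟨J, t, ht, hJU⟩ := hU
    refine ⟨fun i => if i ∈ J then y i else o i, hJU ?_, ?_⟩
    · intro i hi
      have hi : i ∈ J := hi
      simp only [if_pos hi]
      exact mem_of_mem_nhds (ht i)
    · refine J.finite_toSet.subset fun i hi => ?_
      by_contra hiJ
      exact hi (if_neg hiJ)
  obtain ⟨E, hE, hEd⟩ := h (fun _ => D) fun _ => hD
  let C : Finset κ.out → Set (∀ i, K i) := fun F => Set.univ.pi fun i => {k | j i k ∈ F ∨ k = o i}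
  have hC : ∀ F, IsCompact (C F) := by
    intro F
    refine isCompact_univ_pi fun i => Set.Finite.isCompact ?_
    have h1 : {k : K i | j i k ∈ F}.Finite := F.finite_toSet.preimage (hj i).injOn
    exact (h1.union (Set.finite_singleton (o i)))
  have hEC : ∀ n F, (E n ∩ C F).Finite := by
    intro n F
    have h1 : IsCompact (E n ∩ C F) := (hC F).inter_left (hE n).2.1
    have h2 : DiscreteTopology (E n) := (hE n).2.2
    have h3 : DiscreteTopology (E n ∩ C F : Set (∀ i, K i)) :=
      DiscreteTopology.of_subset h2 Set.inter_subset_left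
    exact h1.finite ⟨h3⟩
  -- the union of the supports
  let J : Set I := ⋃ p : ℕ × Finset κ.out, ⋃ x ∈ E p.1 ∩ C p.2, {i | x i ≠ o i}
  have hJ : #J ≤ κ := by
    refine (mk_iUnion_le _).trans ?_
    have h1 : #(ℕ × Finset κ.out) ≤ κ := by
      have hinf : Infinite κ.out := by
        rw [infinite_iff, mk_out]
        exact hκ
      rw [mk_prod, lift_uzero, mk_finset_of_infinite, mk_out, mk_nat, lift_aleph0]
      exact (mul_eq_right hκ hκ aleph0_ne_zero).le
    have h2 : ∀ p : ℕ × Finset κ.out,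
        #(⋃ x ∈ E p.1 ∩ C p.2, {i | x i ≠ o i} : Set I) ≤ ℵ₀ := by
      intro p
      have h3 : (⋃ x ∈ E p.1 ∩ C p.2, {i | x i ≠ o i} : Set I).Finite :=
        (hEC p.1 p.2).biUnion fun x hx => (hE p.1).1 hx.1
      exact h3.countable.le_aleph0
    calc #(ℕ × Finset κ.out) * ⨆ p : ℕ × Finset κ.out,
          #(⋃ x ∈ E p.1 ∩ C p.2, {i | x i ≠ o i} : Set I) ≤ κ * ℵ₀ :=
          mul_le_mul' h1 (ciSup_le' h2)
      _ = κ := mul_eq_left hκ hκ aleph0_ne_zero
  obtain ⟨i, hi⟩ : ∃ i, i ∉ J := by
    by_contra hcon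
    push Not at hcon
    have h1 : J = Set.univ := Set.eq_univ_of_forall hcon
    rw [h1, mk_univ] at hJ
    exact absurd hJ (not_le.2 hI)
  obtain ⟨c, hc⟩ := exists_ne (o i)
  have hopen : IsOpen ((fun x : ∀ i, K i => x i) ⁻¹' {c}) :=
    (isOpen_discrete {c}).preimage (continuous_apply i)
  obtain ⟨x, hx1, hx2⟩ := hEd.inter_open_nonempty _ hopen
    ⟨Function.update o i c, by simp⟩
  obtain ⟨n, hn⟩ := Set.mem_iUnion.1 hx2
  apply hi
  have hsupp : {i | x i ≠ o i}.Finite := (hE n).1 hn
  refine Set.mem_iUnion.2 ⟨(n, hsupp.toFinset.image fun i => j i (x i)), ?_⟩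
  refine Set.mem_biUnion (x := x) ⟨hn, ?_⟩ ?_
  · intro k _
    by_cases hk : x k = o k
    · exact Or.inr hk
    · left
      rw [Finset.mem_image]
      exact ⟨k, by simpa using hk, rfl⟩
  · have hx1 : x i = c := hx1
    change x i ≠ o i
    rw [hx1]
    exact hc

/-! ### A dense set -/

section

variable {I M L : Type u} (φ : I → (M → Bool)) (o : L)

/-- The points of the dense set. -/
noncomputable def pt (t : List (List (M × Bool) × L)) (i : I) : L :=
  ((t.find? fun e => e.1.all fun c => φ i c.1 == c.2).map Prod.snd).getD o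

theorem pt_dense [Nonempty M] (hφ : Function.Injective φ) (J : Finset I) (y : I → L) :
    ∃ t, ∀ i ∈ J, pt φ o t i = y i := by
  classical
  have h1 : ∀ i i' : I, ∃ l, i ≠ i' → φ i l ≠ φ i' l := by
    intro i i'
    by_cases h : i = i'
    · exact ⟨Classical.arbitrary M, fun h' => absurd h h'⟩
    · obtain ⟨l, hl⟩ := Function.ne_iff.1 (hφ.ne h)
      exact ⟨l, fun _ => hl⟩
  choose s hs using h1
  let e : I → List (M × Bool) × L := fun i => (J.toList.map fun i' => (s i i', φ i (s i i')), y i)
  refine ⟨J.toList.map e, fun i hi => ?_⟩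
  have hsat : ∀ k ∈ J, ((e k).1.all fun c => φ i c.1 == c.2) = true → k = i := by
    intro k hk h
    by_contra hne
    rw [List.all_eq_true] at h
    have h2 := h (s k i, φ k (s k i)) (List.mem_map.2 ⟨i, Finset.mem_toList.2 hi, rfl⟩)
    exact hs k i hne (eq_of_beq h2).symm
  have hself : ((e i).1.all fun c => φ i c.1 == c.2) = true := by
    rw [List.all_eq_true]
    intro c hc
    obtain ⟨i', -, rfl⟩ := List.mem_map.1 hc
    exact beq_self_eq_true _
  unfold pt
  cases hf : (J.toList.map e).find? fun e => e.1.all fun c => φ i c.1 == c.2 with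
  | none =>
    rw [List.find?_eq_none] at hf
    exact absurd hself (hf (e i) (List.mem_map.2 ⟨i, Finset.mem_toList.2 hi, rfl⟩))
  | some w =>
    have hw1 := List.mem_of_find?_eq_some hf
    have hw2 := List.find?_some hf
    obtain ⟨k, hk, rfl⟩ := List.mem_map.1 hw1
    have := hsat k (Finset.mem_toList.1 hk) hw2
    subst this
    rfl

end

theorem closedDiscrete_of_injOn {X : Type u} [TopologicalSpace X] [T1Space X] {L : Type v}
    [TopologicalSpace L] [DiscreteTopology L] {f : X → L} (hf : Continuous f) {A : Set X}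
    (hA : Set.InjOn f A) : ClosedDiscrete A := by
  constructor
  · rw [← isOpen_compl_iff, isOpen_iff_mem_nhds]
    intro x hx
    have hV : f ⁻¹' {f x} ∈ 𝓝 x := ((isOpen_discrete {f x}).preimage hf).mem_nhds rfl
    by_cases h : ∃ e ∈ A, f e = f x
    · obtain ⟨e, he, hex⟩ := h
      have hxe : x ≠ e := fun h => hx (h ▸ he)
      filter_upwards [hV, isOpen_compl_singleton.mem_nhds (show x ∈ ({e} : Set X)ᶜ from hxe)]
        with z hz1 hz2 hz3
      exact hz2 (hA hz3 he ((show f z = f x from hz1).trans hex.symm))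
    · filter_upwards [hV] with z hz1 hz3
      exact h ⟨z, hz3, hz1⟩
  · rw [discreteTopology_subtype_iff']
    intro x hx
    refine ⟨f ⁻¹' {f x}, (isOpen_discrete {f x}).preimage hf, ?_⟩
    apply Set.eq_singleton_iff_unique_mem.2
    exact ⟨⟨rfl, hx⟩, fun z hz => hA hz.2 hx hz.1⟩

theorem mk_T {L : Type u} [Infinite L] : #(List (List (L × Bool) × L)) = #L := by
  have hL : ℵ₀ ≤ #L := aleph0_le_mk L
  have h1 : #(L × Bool) = #L := by
    rw [mk_prod, lift_uzero, mk_bool]
    simp only [lift_ofNat]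
    exact mul_eq_left hL ((natCast_lt_aleph0 (n := 2)).le.trans hL) (by norm_num)
  have h2 : #(List (L × Bool)) = #L := by rw [mk_list_eq_mk, h1]
  rw [mk_list_eq_mk, mk_prod, lift_id, lift_id, h2, mul_eq_self hL]

/-- Powers of at most `2 ^ λ` copies of the discrete space of cardinality `λ` are
`e`-separable. -/
theorem smallESeparable (I L : Type u) [TopologicalSpace L] [DiscreteTopology L] [Infinite L]
    [Infinite I] (hI : #I ≤ 2 ^ #L) : SmallESeparable (I → L) := by
  classical
  have h1 : #I ≤ #(L → Bool) := by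
    simpa using hI
  obtain ⟨φ⟩ := h1
  obtain ⟨ι⟩ : Nonempty (List (List (L × Bool) × L) ↪ L) := by
    rw [← Cardinal.le_def, mk_T]
  let c := Infinite.natEmbedding I
  let o : L := Classical.arbitrary L
  let E : ℕ → Set (I → L) := fun n => Set.range fun t => Function.update (pt φ o t) (c n) (ι t)
  refine ⟨E, fun n => ?_, ?_⟩
  · refine closedDiscrete_of_injOn (continuous_apply (c n)) ?_
    rintro _ ⟨t, rfl⟩ _ ⟨t', rfl⟩ h
    have h2 : ι t = ι t' := by simpa using h
    rw [ι.injective h2]
  · intro y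
    rw [mem_closure_iff_nhds]
    intro U hU
    rw [nhds_pi, Filter.mem_pi'] at hU
    obtain ⟨J, T, hT, hJU⟩ := hU
    obtain ⟨t, ht⟩ := pt_dense φ o φ.injective J y
    obtain ⟨n, hn⟩ : ∃ n, c n ∉ J := by
      by_contra hcon
      push Not at hcon
      exact (Set.infinite_range_of_injective c.injective) (J.finite_toSet.subset (by
        rintro _ ⟨n, rfl⟩
        exact hcon n))
    refine ⟨Function.update (pt φ o t) (c n) (ι t), hJU ?_, Set.mem_iUnion.2 ⟨n, t, rfl⟩⟩
    intro i hi
    have hi : i ∈ J := hi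
    have hne : i ≠ c n := fun h => hn (h ▸ hi)
    rw [Function.update_of_ne hne, ht i hi]
    exact mem_of_mem_nhds (hT i)

/-- Powers of at most continuum many copies of a countable discrete space are `e`-separable. -/
theorem smallESeparable' (I L : Type) [TopologicalSpace L] [DiscreteTopology L] [Countable L]
    [Nonempty L] (hI : #I ≤ 2 ^ ℵ₀) : SmallESeparable (I → L) := by
  classical
  have h1 : #I ≤ #(ℕ → Bool) := by
    simpa using hI
  obtain ⟨φ⟩ := h1
  let o : L := Classical.arbitrary L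
  obtain ⟨f, hf⟩ := exists_surjective_nat (List (List (ℕ × Bool) × L))
  refine ⟨fun n => {pt φ o (f n)}, fun n => ?_, ?_⟩
  · exact ⟨isClosed_singleton, inferInstance⟩
  · intro y
    rw [mem_closure_iff_nhds]
    intro U hU
    rw [nhds_pi, Filter.mem_pi'] at hU
    obtain ⟨J, T, hT, hJU⟩ := hU
    obtain ⟨t, ht⟩ := pt_dense φ o φ.injective J y
    obtain ⟨n, rfl⟩ := hf t
    refine ⟨pt φ o (f n), hJU ?_, Set.mem_iUnion.2 ⟨n, rfl⟩⟩
    intro i hi
    rw [ht i hi]
    exact mem_of_mem_nhds (hT i)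

/-- There are `e`-separable products of discrete spaces which are not `E`-separable. -/
theorem result :
    (∃ (I : Type) (K : I → Type) (_ : ∀ i, TopologicalSpace (K i))
      (_ : ∀ i, DiscreteTopology (K i)), SmallESeparable (∀ i, K i) ∧ ¬ BigESeparable (∀ i, K i)) ∧
    (∀ (I L : Type u) [TopologicalSpace L] [DiscreteTopology L] [Infinite L],
      #L < #I → #I ≤ 2 ^ #L → SmallESeparable (I → L) ∧ ¬ BigESeparable (I → L)) ∧
    (∀ (I L : Type) [TopologicalSpace L] [DiscreteTopology L] [Countable L] [Nontrivial L],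
      ℵ₀ < #I → #I ≤ 2 ^ ℵ₀ → SmallESeparable (I → L) ∧ ¬ BigESeparable (I → L)) ∧
    (∀ (I : Type u) (K : I → Type u) [∀ i, TopologicalSpace (K i)] [∀ i, DiscreteTopology (K i)]
      [∀ i, Nontrivial (K i)] (κ : Cardinal.{u}), ℵ₀ ≤ κ → (∀ i, #(K i) ≤ κ) → κ < #I →
      ¬ BigESeparable (∀ i, K i)) := by
  have h2 : ∀ (I L : Type u) [TopologicalSpace L] [DiscreteTopology L] [Infinite L],
      #L < #I → #I ≤ 2 ^ #L → SmallESeparable (I → L) ∧ ¬ BigESeparable (I → L) := by
    intro I L _ _ _ h1 h2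
    have : Infinite I := by
      rw [infinite_iff]
      exact (aleph0_le_mk L).trans h1.le
    exact ⟨smallESeparable I L h2,
      not_bigESeparable (fun _ : I => L) #L (aleph0_le_mk L) (fun _ => le_rfl) h1⟩
  have h3 : ∀ (I L : Type) [TopologicalSpace L] [DiscreteTopology L] [Countable L] [Nontrivial L],
      ℵ₀ < #I → #I ≤ 2 ^ ℵ₀ → SmallESeparable (I → L) ∧ ¬ BigESeparable (I → L) := by
    intro I L _ _ _ _ h1 h2
    exact ⟨smallESeparable' I L h2,
      not_bigESeparable (fun _ : I => L) ℵ₀ le_rfl (fun _ => mk_le_aleph0) h1⟩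
  refine ⟨?_, h2, h3, fun I K _ _ _ κ h1 h2 h3 => not_bigESeparable K κ h1 h2 h3⟩
  have h4 := h3 ℝ Bool (by rw [mk_real]; exact aleph0_lt_continuum) (by rw [mk_real]; simp)
  exact ⟨ℝ, fun _ => Bool, inferInstance, inferInstance, h4⟩

end Pool.Agent.Results.MP_a67be6_gt.DiscretePowers
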